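import Pool.Agent.BBN.Defs

/-!
# Automorphisms of products of varieties of the four kinds: definitions
-/

set_option autoImplicit false

noncomputable section

namespace Pool.Agent.BBN

open Pool.Agent.BBM
open scoped LinearAlgebra.Projectivization

variable {S₁ S₂ S₃ S₄ : Type}

/-- The automorphisms of `Y ^ m` which are generated by permutations of the factors `Y s` (for every
`s`) and by automorphisms of the factors. -/
@[ext]
structure Aut (Y : Fly S₁ S₂ S₃ S₄) (m : S₁ ⊕ S₂ ⊕ S₃ ⊕ S₄ → ℕ) where
  /-- the permutations of the factors -/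
  perm : ∀ s, Equiv.Perm (Fin (m s))
  /-- the automorphisms of the factors -/
  diag : ∀ i : Idx m, Y.G i.1

variable {Y : Fly S₁ S₂ S₃ S₄} {m : S₁ ⊕ S₂ ⊕ S₃ ⊕ S₄ → ℕ}

/-- The automorphism as a morphism in the sense of `Pool.Agent.BBM`: the component with number `i` is
the factor `perm i` followed by the automorphism `diag i`. -/
def toMor (g : Aut Y m) : Mor Y.P Y.G m m := fun i => Comp.fac (g.perm i.1 i.2) (g.diag i)

/-- The combination `γ` of automorphisms kills all holomorphic forms on `Y ^ m`, of all degrees. -/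
def KillsAll [Fintype S₁] [Fintype S₂] [Fintype S₃] [Fintype S₄] (γ : Aut Y m →₀ ℚ) : Prop :=
  ∀ ν, Y.KillsForms (γ.mapDomain toMor) ν

end Pool.Agent.BBN
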