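import Pool.Agent.BBN.Cl
import Pool.Agent.BBN.InstA
import Pool.Agent.HYG.CKill
import Pool.Agent.HYG.Cls
import Pool.Agent.DTU.Ind
import Pool.Agent.DTU.Swap

/-!
# The varieties of the second kind

Let `s` be an index of the second kind. A point of `Y s` is given by `σ : Fin (Y.b s) → Option ℂ` and
`P : Fin (Y.l s) → Option ℂ` with `DTU.On (Y.V s) σ P`. A class function on `Y s` gives a class function
`DTU.IsCF₁`, the parts `Y.pr s c f` are eigenfunctions, and the theorems of `Pool/Agent/DTU/Ind.lean` and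
`Pool/Agent/DTU/Swap.lean` apply.
-/

set_option autoImplicit false

noncomputable section

namespace Pool.Agent.BBN

open Pool.Agent.BBX
open Pool.Agent.ZCyc Pool.Agent.BBM Pool.Agent.Dess Pool.Agent.TInc
open Pool.Agent.GBB (zeta psi)
open Pool.Agent.HGF (fst snd form vlo)
open scoped LinearAlgebra.Projectivization Classical

/-! ### Points -/

/-- the point with the given coordinates -/
def pt2 {b l : ℕ} (σ : Fin b → Option ℂ) (P : Fin l → Option ℂ) :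
    Fin b ⊕ Fin l → ℙ ℂ (Fin 2 → ℂ)
  | .inl j => HYG.toP (σ j)
  | .inr i => HYG.toP (P i)

private theorem toP_rep (x : Option ℂ) : ∃ a : ℂ, a ≠ 0 ∧
    (HYG.toP x).rep = a • (![fst x, snd x] : Fin 2 → ℂ) := by
  cases x with
  | none =>
    obtain ⟨a, ha, h0, h1⟩ := HYG.toP_none (k := ℂ)
    refine ⟨a, ha, ?_⟩
    rw [HGF.fst_none, HGF.snd_none]
    funext j
    fin_cases j
    · simpa using h0
    · simpa using h1
  | some w =>
    obtain ⟨a, ha, h0, h1⟩ := HYG.toP_some w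
    refine ⟨a, ha, ?_⟩
    rw [HGF.fst_some, HGF.snd_some]
    funext j
    fin_cases j
    · simpa using h0
    · simpa using h1

theorem detV_iff {b l : ℕ} (V : DTU.Fam ℂ b l) (σ : Fin b → Option ℂ) (P : Fin l → Option ℂ) :
    detV V (fun j => (HYG.toP (σ j)).rep) (fun i => (HYG.toP (P i)).rep) = 0 ↔ DTU.On V σ P := by
  choose c hc hσ using fun j => toP_rep (σ j)
  choose a ha hP using fun i => toP_rep (P i)
  have e0 : ∀ (e : Fin b → ℕ) (u : (Fin b → ℕ) → ℂ), DTU.ev e u (fun j => (HYG.toP (σ j)).rep) =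
      (∏ j, c j ^ e j) * DTU.ev e u fun j => GOC.vo (σ j) := by
    intro e u
    rw [← DTU.ev_smul]
    congr 1
    funext j i
    rw [hσ]
    rfl
  have h0 : ∀ i : Fin l, (HYG.toP (P i)).rep 0 = a i * fst (P i) ∧
      (HYG.toP (P i)).rep 1 = a i * snd (P i) := by
    intro i
    rw [hP]
    exact ⟨rfl, rfl⟩
  have h1 : (Matrix.of fun i j => DTU.ev (V.e i) (V.A i j) (fun j => (HYG.toP (σ j)).rep) *
        (HYG.toP (P j)).rep 1 ^ V.M j -
      DTU.ev (V.e i) (V.B i j) (fun j => (HYG.toP (σ j)).rep) * (HYG.toP (P j)).rep 0 ^ V.M j) =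
      Matrix.of fun i j => (∏ j, c j ^ V.e i j) * (Matrix.of fun i j => a j ^ V.M j *
        (Matrix.of ((V.col σ).ga V.M P)).transpose i j) i j := by
    ext i j
    simp only [Matrix.of_apply, Matrix.transpose_apply, e0, h0, mul_pow]
    unfold DTU.Col.ga DTU.Fam.col DTU.Fam.cv
    ring
  have h2 : detV V (fun j => (HYG.toP (σ j)).rep) (fun i => (HYG.toP (P i)).rep) =
      (∏ i, ∏ j, c j ^ V.e i j) * ((∏ i, a i ^ V.M i) *
        (Matrix.of ((V.col σ).ga V.M P)).det) := by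
    unfold detV
    rw [h1, Matrix.det_mul_column, Matrix.det_mul_row, Matrix.det_transpose]
  rw [h2, mul_eq_zero, or_iff_right (Finset.prod_ne_zero_iff.2 fun i _ =>
    Finset.prod_ne_zero_iff.2 fun j _ => pow_ne_zero _ (hc j)), mul_eq_zero,
    or_iff_right (Finset.prod_ne_zero_iff.2 fun i _ => pow_ne_zero _ (ha i))]
  exact Iff.rfl

variable {S₁ S₂ S₃ S₄ : Type} {Y : Fly S₁ S₂ S₃ S₄} {W : Type} [AddCommGroup W] [Module ℂ W]

theorem mem2_iff {s : S₂} (σ : Fin (Y.b s) → Option ℂ) (P : Fin (Y.l s) → Option ℂ) :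
    (pt2 σ P : Y.Amb (.inr (.inl s))) ∈ Y.X (.inr (.inl s)) ↔
      DTU.On (Y.V s) σ P :=
  detV_iff (Y.V s) σ P

/-- a point is given by elements of `Option ℂ` -/
theorem exists_opt2 {s : S₂} (p : Y.P (.inr (.inl s))) :
    ∃ (σ : Fin (Y.b s) → Option ℂ) (P : Fin (Y.l s) → Option ℂ), p.1 = pt2 σ P := by
  refine ⟨fun j => HYG.ofP (p.1 (Sum.inl j)), fun i => HYG.ofP (p.1 (Sum.inr i)), ?_⟩
  funext e
  rcases e with j | i
  · exact (HYG.toP_ofP _).symm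
  · exact (HYG.toP_ofP _).symm

/-- the function `f` in coordinates (zero for points which are not on `Y s`) -/
def f2 {s : S₂} (f : Y.P (.inr (.inl s)) → W) (σ : Fin (Y.b s) → Option ℂ) (P : Fin (Y.l s) → Option ℂ) : W :=
  if h : (pt2 σ P : Y.Amb (.inr (.inl s))) ∈ Y.X (.inr (.inl s)) then
    f ⟨pt2 σ P, h⟩ else 0

theorem f2_eq {s : S₂} (f : Y.P (.inr (.inl s)) → W) {p : Y.P (.inr (.inl s))}
    {σ : Fin (Y.b s) → Option ℂ} {P : Fin (Y.l s) → Option ℂ} (h : p.1 = pt2 σ P) : f2 f σ P = f p := by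
  have hm : (pt2 σ P : Y.Amb (.inr (.inl s))) ∈ Y.X (.inr (.inl s)) := h ▸ p.2
  unfold f2
  rw [dif_pos hm]
  congr 1
  exact Subtype.ext h.symm

theorem f2_smul {s : S₂} (a : ℂ) (f : Y.P (.inr (.inl s)) → W) (σ : Fin (Y.b s) → Option ℂ) (P : Fin (Y.l s) → Option ℂ) : f2 (fun p => a • f p) σ P = a • f2 f σ P := by
  unfold f2
  split_ifs with h
  · rfl
  · simp

private theorem mul_toP2 {d : ℕ} (h : rootsOfUnity d ℂ) (P : Option ℂ) :
    BBP.mul ![h, 1] (HYG.toP P) = HYG.toP (P.map fun w => ((h : ℂˣ) : ℂ) * w) := by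
  rw [← HYG.mulP_toP (Units.ne_zero _) P]
  unfold BBP.mul HYG.mulP
  congr 1
  funext j
  fin_cases j
  · rfl
  · simp

theorem ap_pt2 {s : S₂} (h : ∀ i, rootsOfUnity ((Y.V s).M i) ℂ) (σ : Fin (Y.b s) → Option ℂ) (P : Fin (Y.l s) → Option ℂ) :
    Y.ap (.inr (.inl s)) h (pt2 σ P) =
      pt2 σ (HYG.rotA (fun i => ((h i : ℂˣ) : ℂ)) P) := by
  funext e
  rcases e with j | i
  · rfl
  · exact mul_toP2 (h i) (P i)

private theorem root_pow2 {d : ℕ} (h : rootsOfUnity d ℂ) : ((h : ℂˣ) : ℂ) ^ d = 1 := by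
  have h1 := congrArg Units.val ((mem_rootsOfUnity d (h : ℂˣ)).1 h.2)
  simpa using h1

private theorem on_rotA2 {b l : ℕ} {V : DTU.Fam ℂ b l} {u : Fin l → ℂ}
    (hu : ∀ i, u i ^ V.M i = 1) (σ : Fin b → Option ℂ) (P : Fin l → Option ℂ) :
    DTU.On V σ (HYG.rotA u P) ↔ DTU.On V σ P := by
  have h : (V.col σ).ga V.M (HYG.rotA u P) = (V.col σ).ga V.M P := by
    funext i l
    unfold DTU.Col.ga HYG.rotA
    cases hP : P i with
    | none => rfl
    | some w =>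
      rw [Option.map_some, HGF.snd_some, HGF.snd_some, HGF.fst_some, HGF.fst_some, mul_pow, hu,
        one_mul]
  unfold DTU.On DTU.Col.On
  rw [h]

theorem f2_act {s : S₂} (f : Y.P (.inr (.inl s)) → W)
    (h : ∀ i, rootsOfUnity ((Y.V s).M i) ℂ) (σ : Fin (Y.b s) → Option ℂ) (P : Fin (Y.l s) → Option ℂ) :
    f2 f σ (HYG.rotA (fun i => ((h i : ℂˣ) : ℂ)) P) =
      f2 (fun p => f (Y.act (.inr (.inl s)) h p)) σ P := by
  unfold f2
  have hi := on_rotA2 (V := Y.V s) (u := fun i => ((h i : ℂˣ) : ℂ)) (fun i => root_pow2 (h i)) σ P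
  rw [← mem2_iff, ← mem2_iff] at hi
  by_cases hP : (pt2 σ P : Y.Amb (.inr (.inl s))) ∈ Y.X (.inr (.inl s))
  · rw [dif_pos hP, dif_pos (hi.2 hP)]
    congr 1
    exact Subtype.ext (ap_pt2 h σ P).symm
  · rw [dif_neg hP, dif_neg fun h' => hP (hi.1 h')]

/-! ### Class functions: automorphisms and sums -/

private theorem isValue_mul2 {F : Type} [Field F] [Algebra ℂ F] (v : Place ℂ F) {d N : ℕ}
    (ζ : Fin N → rootsOfUnity d ℂ) (x : Fin N → F) (p : ℙ ℂ (Fin N → ℂ))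
    (h : DCI57.IsValue v x p) :
    DCI57.IsValue v (fun j => algebraMap ℂ F ((ζ j : ℂˣ) : ℂ) * x j) (BBP.mul ζ p) := by
  obtain ⟨t, hs⟩ := h
  obtain ⟨a, ha⟩ := Projectivization.exists_smul_eq_mk_rep ℂ
    (fun j => ((ζ j : ℂˣ) : ℂ) * p.rep j) (BBP.mul_ne ζ p)
  have ha' : ∀ j, (BBP.mul ζ p).rep j = (a : ℂ) * (((ζ j : ℂˣ) : ℂ) * p.rep j) :=
    fun j => (congrFun ha j).symm
  refine ⟨algebraMap ℂ F a * t, fun j => ?_⟩
  have h3 : algebraMap ℂ F a * t * (algebraMap ℂ F ((ζ j : ℂˣ) : ℂ) * x j) -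
      algebraMap ℂ F ((a : ℂ) * (((ζ j : ℂˣ) : ℂ) * p.rep j)) =
      algebraMap ℂ F (a * ((ζ j : ℂˣ) : ℂ)) * (t * x j - algebraMap ℂ F (p.rep j)) := by
    simp only [map_mul]
    ring
  rw [ha', h3, mul_comm]
  unfold Place.Vanishes
  rw [ValuationSubring.mem_nonunits_iff, map_mul]
  have h4 := hs j
  unfold Place.Vanishes at h4
  rw [ValuationSubring.mem_nonunits_iff] at h4
  exact mul_lt_one_of_lt_of_le h4 ((v.ring.valuation_le_one_iff _).2 (v.const_mem _))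

/-- the coordinates of the image of a point under an automorphism -/
private def xh {F : Type} [Field F] [Algebra ℂ F] {b l : ℕ} {M : Fin l → ℕ}
    (h : ∀ i, rootsOfUnity (M i) ℂ) (x : Fin b ⊕ Fin l → Fin 2 → F) :
    Fin b ⊕ Fin l → Fin 2 → F
  | .inl j => x (.inl j)
  | .inr i => fun j => algebraMap ℂ F (((![h i, 1] : Fin 2 → rootsOfUnity (M i) ℂ) j : ℂˣ) : ℂ) *
      x (.inr i) j

private theorem isValue_ap2 {F : Type} [Field F] [Algebra ℂ F] {s : S₂}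
    (h : ∀ i, rootsOfUnity ((Y.V s).M i) ℂ) {v : Place ℂ F}
    {x : Fin (Y.b s) ⊕ Fin (Y.l s) → Fin 2 → F} {p : Fin (Y.b s) ⊕ Fin (Y.l s) → ℙ ℂ (Fin 2 → ℂ)}
    (hx : ∀ e, DCI57.IsValue v (x e) (p e)) (e : Fin (Y.b s) ⊕ Fin (Y.l s)) :
    DCI57.IsValue v (xh h x e) (Y.ap (.inr (.inl s)) h p e) := by
  rcases e with j | i
  · exact hx (.inl j)
  · exact isValue_mul2 v _ _ _ (hx (.inr i))

theorem Fly.Cl1.act2 {s : S₂} {f : Y.P (.inr (.inl s)) → W} (hf : Y.Cl1 f)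
    (h : ∀ i, rootsOfUnity ((Y.V s).M i) ℂ) :
    Y.Cl1 fun p => f (Y.act (.inr (.inl s)) h p) := by
  intro F _ _ _ _ _ _ x φ hx a b v w hv hw
  exact hf F (xh h x) (fun v => Y.act (.inr (.inl s)) h (φ v))
    (fun v e => isValue_ap2 h (hx v) e) a b v w hv hw

theorem Fly.Cl2.act2 {s : S₂} {f : Y.P (.inr (.inl s)) → Y.P (.inr (.inl s)) → W}
    (hf : Y.Cl2 f) (h h' : ∀ i, rootsOfUnity ((Y.V s).M i) ℂ) :
    Y.Cl2 fun p q => f (Y.act (.inr (.inl s)) h p) (Y.act (.inr (.inl s)) h' q) := by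
  intro F _ _ _ _ _ _ x x' φ φ' hx hx' a b v w hv hw
  exact hf F (xh h x) (xh h' x') (fun v => Y.act (.inr (.inl s)) h (φ v))
    (fun v => Y.act (.inr (.inl s)) h' (φ' v)) (fun v e => isValue_ap2 h (hx v) e)
    (fun v e => isValue_ap2 h' (hx' v) e) a b v w hv hw

theorem Fly.Cl1.sum {s : S₁ ⊕ S₂ ⊕ S₃ ⊕ S₄} {ι : Type} (T : Finset ι) (c : ι → ℂ)
    {f : ι → Y.P s → W} (hf : ∀ κ, Y.Cl1 (f κ)) : Y.Cl1 fun p => ∑ κ ∈ T, c κ • f κ p := by
  intro F _ _ _ _ _ _ x φ hx a b v w hv hw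
  have h1 : ∀ κ ∈ T, ∑ τ : F ≃ₐ[RatFunc ℂ] F, (c κ • f κ (φ (v.map (τ.restrictScalars ℂ))) -
      c κ • f κ (φ (w.map (τ.restrictScalars ℂ)))) = 0 := by
    intro κ _
    have h2 := hf κ F x φ hx a b v w hv hw
    simp only [← smul_sub, ← Finset.smul_sum]
    rw [h2, smul_zero]
  simp only [← Finset.sum_sub_distrib]
  rw [Finset.sum_comm]
  exact Finset.sum_eq_zero h1

theorem Fly.Cl2.sum {s s' : S₁ ⊕ S₂ ⊕ S₃ ⊕ S₄} {ι : Type} (T : Finset ι) (c : ι → ℂ)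
    {f : ι → Y.P s → Y.P s' → W} (hf : ∀ κ, Y.Cl2 (f κ)) :
    Y.Cl2 fun p q => ∑ κ ∈ T, c κ • f κ p q := by
  intro F _ _ _ _ _ _ x x' φ φ' hx hx' a b v w hv hw
  have h1 : ∀ κ ∈ T, ∑ τ : F ≃ₐ[RatFunc ℂ] F,
      (c κ • f κ (φ (v.map (τ.restrictScalars ℂ))) (φ' (v.map (τ.restrictScalars ℂ))) -
      c κ • f κ (φ (w.map (τ.restrictScalars ℂ))) (φ' (w.map (τ.restrictScalars ℂ)))) = 0 := by
    intro κ _
    have h2 := hf κ F x x' φ φ' hx hx' a b v w hv hw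
    simp only [← smul_sub, ← Finset.smul_sum]
    rw [h2, smul_zero]
  simp only [← Finset.sum_sub_distrib]
  rw [Finset.sum_comm]
  exact Finset.sum_eq_zero h1

/-! ### Class functions in coordinates -/

private theorem isValue_opt {K : Type} [Field K] [Algebra ℂ K] (hK : IsCurve ℂ K) (v : Place ℂ K)
    (x : Option K) : DCI57.IsValue v (![fst x, snd x] : Fin 2 → K) (HYG.toP (vlo v x)) := by
  cases x with
  | some f =>
    have h1 := HYG.isValue_toP hK v f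
    rw [HGF.fst_some, HGF.snd_some]
    exact h1
  | none =>
    obtain ⟨a, ha, h0, h1⟩ := HYG.toP_none (k := ℂ)
    rw [HGF.fst_none, HGF.snd_none]
    refine ⟨algebraMap ℂ K a, fun j => ?_⟩
    have h2 : algebraMap ℂ K a * (![1, 0] : Fin 2 → K) j -
        algebraMap ℂ K ((HYG.toP (vlo v (none : Option K))).rep j) = 0 := by
      rw [HGF.vlo_none]
      fin_cases j
      · change algebraMap ℂ K a * 1 - algebraMap ℂ K ((HYG.toP (none : Option ℂ)).rep 0) = 0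
        rw [h0, mul_one, sub_self]
      · change algebraMap ℂ K a * 0 - algebraMap ℂ K ((HYG.toP (none : Option ℂ)).rep 1) = 0
        rw [h1, mul_zero, map_zero, sub_self]
    rw [h2]
    exact v.vanishes_zero

private def xo {K : Type} [Field K] {b l : ℕ} (σ : Fin b → Option K) (w : Fin l → Option K) :
    Fin b ⊕ Fin l → Fin 2 → K
  | .inl j => ![fst (σ j), snd (σ j)]
  | .inr i => ![fst (w i), snd (w i)]

private theorem isValue_xo {K : Type} [Field K] [Algebra ℂ K] (hK : IsCurve ℂ K) (v : Place ℂ K)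
    {b l : ℕ} (σ : Fin b → Option K) (w : Fin l → Option K) (e : Fin b ⊕ Fin l) :
    DCI57.IsValue v (xo σ w e) (pt2 (fun i => vlo v (σ i)) (fun i => vlo v (w i)) e) := by
  rcases e with j | i
  · exact isValue_opt hK v (σ j)
  · exact isValue_opt hK v (w i)

theorem Fly.Cl1.isCF2 {s : S₂} {f : Y.P (.inr (.inl s)) → W} (hf : Y.Cl1 f) :
    DTU.IsCF₁ (Y.V s) (f2 f) := by
  intro K _ _ hK σ w g hg hw
  have : GT.HasRes ℂ K := GT.hasRes_of_isCurve hK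
  have hm : ∀ v : Place ℂ K, (pt2 (fun i => vlo v (σ i)) (fun i => vlo v (w i)) :
      Y.Amb (.inr (.inl s))) ∈ Y.X (.inr (.inl s)) :=
    fun v => (mem2_iff _ _).2 (DTU.onX_vlo v hw)
  have h1 := hf.div hK (xo σ w) (fun v => ⟨_, hm v⟩) (fun v e => isValue_xo hK v σ w e) hg
  rw [← h1]
  refine Finset.sum_congr rfl fun v _ => ?_
  beta_reduce
  rw [Int.cast_smul_eq_zsmul]
  congr 1
  exact f2_eq f (p := ⟨_, hm v⟩) rfl

theorem Fly.Cl2.isCF2 {s : S₂} {f : Y.P (.inr (.inl s)) → Y.P (.inr (.inl s)) → W}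
    (hf : Y.Cl2 f) : DTU.IsCF₂ (Y.V s) fun σ P σ' Q => f2 (fun p => f2 (f p) σ' Q) σ P := by
  intro K _ _ hK σ w σ' w' g hg hw hw'
  have : GT.HasRes ℂ K := GT.hasRes_of_isCurve hK
  have hm : ∀ v : Place ℂ K, (pt2 (fun i => vlo v (σ i)) (fun i => vlo v (w i)) :
      Y.Amb (.inr (.inl s))) ∈ Y.X (.inr (.inl s)) :=
    fun v => (mem2_iff _ _).2 (DTU.onX_vlo v hw)
  have hm' : ∀ v : Place ℂ K, (pt2 (fun i => vlo v (σ' i)) (fun i => vlo v (w' i)) :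
      Y.Amb (.inr (.inl s))) ∈ Y.X (.inr (.inl s)) :=
    fun v => (mem2_iff _ _).2 (DTU.onX_vlo v hw')
  have h1 := hf.div hK (xo σ w) (xo σ' w') (fun v => ⟨_, hm v⟩) (fun v => ⟨_, hm' v⟩)
    (fun v e => isValue_xo hK v σ w e) (fun v e => isValue_xo hK v σ' w' e) hg
  rw [← h1]
  refine Finset.sum_congr rfl fun v _ => ?_
  beta_reduce
  rw [Int.cast_smul_eq_zsmul]
  congr 1
  exact (f2_eq _ (p := ⟨_, hm v⟩) rfl).trans (f2_eq _ (p := ⟨_, hm' v⟩) rfl)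

/-! ### The parts -/

variable [Fintype S₁] [Fintype S₂] [Fintype S₄] [∀ s, NeZero (Y.d s)]
  [∀ s i, NeZero ((Y.V s).M i)] [∀ s i, NeZero ((Y.Z s).M i)]

omit [Fintype S₁] [Fintype S₂] [Fintype S₄] in
theorem Fly.Cl1.pr2 {s : S₂} {f : Y.P (.inr (.inl s)) → W} (hf : Y.Cl1 f)
    (c : Y.K (.inr (.inl s))) : Y.Cl1 (Y.pr (.inr (.inl s)) c f) :=
  Fly.Cl1.sum Finset.univ (Y.wt (.inr (.inl s)) c) fun κ => hf.act2 fun i => BBP.rt
    ((κ : ∀ i : Fin (Y.l s), ZMod ((Y.V s).M i)) i)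

omit [Fintype S₁] [Fintype S₂] [Fintype S₄] in
theorem Fly.Cl2.pr2 {s : S₂} {f : Y.P (.inr (.inl s)) → Y.P (.inr (.inl s)) → W}
    (hf : Y.Cl2 f) (c c' : Y.K (.inr (.inl s))) :
    Y.Cl2 (Y.pr2 (.inr (.inl s)) (.inr (.inl s)) c c' f) := by
  have h1 := Fly.Cl2.sum (Y := Y) (Finset.univ : Finset (Y.K (.inr (.inl s)) ×
    Y.K (.inr (.inl s)))) (fun κ => Y.wt (.inr (.inl s)) c κ.1 *
      Y.wt (.inr (.inl s)) c' κ.2) fun κ => hf.act2 (fun i => BBP.rt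
        ((κ.1 : ∀ i : Fin (Y.l s), ZMod ((Y.V s).M i)) i)) fun i => BBP.rt
          ((κ.2 : ∀ i : Fin (Y.l s), ZMod ((Y.V s).M i)) i)
  have h2 : Y.pr2 (.inr (.inl s)) (.inr (.inl s)) c c' f = fun p q =>
      ∑ κ : Y.K (.inr (.inl s)) × Y.K (.inr (.inl s)),
        (Y.wt (.inr (.inl s)) c κ.1 * Y.wt (.inr (.inl s)) c' κ.2) •
          f (Y.act (.inr (.inl s)) (fun i => BBP.rt
            ((κ.1 : ∀ i : Fin (Y.l s), ZMod ((Y.V s).M i)) i)) p)
            (Y.act (.inr (.inl s)) (fun i => BBP.rt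
              ((κ.2 : ∀ i : Fin (Y.l s), ZMod ((Y.V s).M i)) i)) q) := by
    funext p q
    rw [Fintype.sum_prod_type]
    rfl
  rw [h2]
  exact h1

private theorem rot_eq2 {n : ℕ} (i : Fin n) (u : ℂ) (P : Fin n → Option ℂ) :
    HYG.rot i u P = HYG.rotA (Function.update (1 : Fin n → ℂ) i u) P := by
  funext j
  unfold HYG.rot HYG.rotA
  by_cases hj : j = i
  · subst hj
    rw [Function.update_self, Function.update_self]
  · rw [Function.update_of_ne hj, Function.update_of_ne hj, Pi.one_apply]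
    simp

omit [Fintype S₁] [Fintype S₂] [Fintype S₄] [∀ s, NeZero (Y.d s)]
  [∀ s i, NeZero ((Y.Z s).M i)] in
/-- the automorphism which multiplies the coordinate `i` by `u` -/
private theorem exists_root2 {s : S₂} (i : Fin (Y.l s)) {u : ℂ} (hu : u ^ (Y.V s).M i = 1) :
    ∃ h : ∀ j : Fin (Y.l s), rootsOfUnity ((Y.V s).M j) ℂ,
      (fun j => ((h j : ℂˣ) : ℂ)) = Function.update (1 : Fin (Y.l s) → ℂ) i u := by
  have hu0 : u ≠ 0 := by
    intro h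
    rw [h, zero_pow (NeZero.ne _)] at hu
    exact zero_ne_one hu
  refine ⟨Function.update 1 i ⟨Units.mk0 u hu0, by
    rw [mem_rootsOfUnity]
    ext
    exact hu⟩, ?_⟩
  funext j
  by_cases hj : j = i
  · subst hj
    rw [Function.update_self, Function.update_self]
    rfl
  · rw [Function.update_of_ne hj, Function.update_of_ne hj]
    rfl

private theorem prod_upd2 {n : ℕ} (i : Fin n) (u : ℂ) (a : Fin n → ℕ) :
    (∏ j, (Function.update (1 : Fin n → ℂ) i u) j ^ a j) = u ^ a i := by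
  rw [Fintype.prod_eq_single i]
  · rw [Function.update_self]
  · intro j hj
    rw [Function.update_of_ne hj, Pi.one_apply, one_pow]

omit [Fintype S₁] [Fintype S₂] [Fintype S₄] [∀ s, NeZero (Y.d s)]
  [∀ s i, NeZero ((Y.V s).M i)] [∀ s i, NeZero ((Y.Z s).M i)] in
private theorem chi_upd2 {s : S₂} (c : ∀ i : Fin (Y.l s), ZMod ((Y.V s).M i))
    (i : Fin (Y.l s)) (u : ℂ) (h : ∀ j : Fin (Y.l s), rootsOfUnity ((Y.V s).M j) ℂ)
    (hh : (fun j => ((h j : ℂˣ) : ℂ)) = Function.update (1 : Fin (Y.l s) → ℂ) i u) :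
    Y.chi (.inr (.inl s)) c h = u ^ (c i).val := by
  rw [← prod_upd2 i u fun i => (c i).val, ← hh]
  rfl

omit [Fintype S₁] [Fintype S₂] [Fintype S₄] in
/-- the eigenfunctions -/
theorem cls2 {s : S₂} {f : Y.P (.inr (.inl s)) → W} (hf : Y.Cl1 f)
    (c : ∀ i : Fin (Y.l s), ZMod ((Y.V s).M i)) :
    DTU.IsCls₁ (Y.V s) (fun i (u : ℂ) => u ^ (c i).val)
      (f2 (Y.pr (.inr (.inl s)) c f)) := by
  refine ⟨(hf.pr2 c).isCF2, fun σ P i u hu => ?_⟩
  obtain ⟨h, hh⟩ := exists_root2 (Y := Y) i hu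
  rw [rot_eq2, ← hh, f2_act]
  have h1 : (fun p => Y.pr (.inr (.inl s)) c f (Y.act (.inr (.inl s)) h p)) =
      fun p => u ^ (c i).val • Y.pr (.inr (.inl s)) c f p := by
    funext p
    rw [pr_act₂, chi_upd2 c i u h hh]
  rw [h1, f2_smul]

omit [Fintype S₁] [Fintype S₂] [Fintype S₄] in
theorem pr_const₂ (hY : Y.Ok) {s : S₂} {f : Y.P (.inr (.inl s)) → W} (hf : Y.Cl1 f)
    (c : ∀ i : Fin (Y.l s), ZMod ((Y.V s).M i)) (hc : ∀ i, c i = 0)
    (p q : Y.P (.inr (.inl s))) :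
    Y.pr (.inr (.inl s)) c f p = Y.pr (.inr (.inl s)) c f q := by
  obtain ⟨σ, P, hP⟩ := exists_opt2 p
  obtain ⟨σ', Q, hQ⟩ := exists_opt2 q
  have e1 : f2 (Y.pr (.inr (.inl s)) c f) σ P = Y.pr (.inr (.inl s)) c f p :=
    f2_eq _ hP
  have e2 : f2 (Y.pr (.inr (.inl s)) c f) σ' Q = Y.pr (.inr (.inl s)) c f q :=
    f2_eq _ hQ
  refine e1.symm.trans (Eq.trans ?_ e2)
  refine (cls2 hf c).ind (fun i => lt_of_lt_of_le two_pos (hY.exp₂ s i)) (i := ⟨0, (hY.dim₂ s).2.1⟩)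
    (fun u _ => ?_) ((mem2_iff σ P).1 (hP ▸ p.2)) ((mem2_iff σ' Q).1 (hQ ▸ q.2))
  rw [hc, ZMod.val_zero, pow_zero]

omit [Fintype S₁] [Fintype S₂] [Fintype S₄] in
theorem pr_zero₂ (hY : Y.Ok) {s : S₂} {f : Y.P (.inr (.inl s)) → W} (hf : Y.Cl1 f)
    (c : ∀ i : Fin (Y.l s), ZMod ((Y.V s).M i)) {i j : Fin (Y.l s)} (hi : c i ≠ 0)
    (hj : c j = 0) (p : Y.P (.inr (.inl s))) :
    Y.pr (.inr (.inl s)) c f p = 0 := by
  obtain ⟨σ, P, hP⟩ := exists_opt2 p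
  have e1 : f2 (Y.pr (.inr (.inl s)) c f) σ P = Y.pr (.inr (.inl s)) c f p :=
    f2_eq _ hP
  refine e1.symm.trans ?_
  refine (cls2 hf c).mixed (fun i => lt_of_lt_of_le two_pos (hY.exp₂ s i)) (i := j)
    (j := i) (fun u _ => ?_) ?_
    ((mem2_iff σ P).1 (hP ▸ p.2))
  · rw [hj, ZMod.val_zero, pow_zero]
  · exact HYG.exists_nontriv (fun h => hi ((ZMod.val_eq_zero _).1 h)) (ZMod.val_lt _)

omit [Fintype S₁] [Fintype S₂] [Fintype S₄] in
private theorem pr2_left2 {s : S₂} (c c' : Y.K (.inr (.inl s)))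
    (f : Y.P (.inr (.inl s)) → Y.P (.inr (.inl s)) → W)
    (p q : Y.P (.inr (.inl s))) :
    Y.pr2 (.inr (.inl s)) (.inr (.inl s)) c c' f p q =
      Y.pr (.inr (.inl s)) c (fun p => ∑ κ' : Y.K (.inr (.inl s)),
        Y.wt (.inr (.inl s)) c' κ' • f p (Y.av (.inr (.inl s)) κ' q)) p := by
  unfold Fly.pr2 Fly.pr
  simp only [Finset.smul_sum, mul_smul]

omit [Fintype S₁] [Fintype S₂] [Fintype S₄] in
private theorem pr2_right2 {s : S₂} (c c' : Y.K (.inr (.inl s)))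
    (f : Y.P (.inr (.inl s)) → Y.P (.inr (.inl s)) → W)
    (p q : Y.P (.inr (.inl s))) :
    Y.pr2 (.inr (.inl s)) (.inr (.inl s)) c c' f p q =
      Y.pr (.inr (.inl s)) c' (fun q => ∑ κ : Y.K (.inr (.inl s)),
        Y.wt (.inr (.inl s)) c κ • f (Y.av (.inr (.inl s)) κ p) q) q := by
  unfold Fly.pr2 Fly.pr
  rw [Finset.sum_comm]
  simp only [Finset.smul_sum, mul_smul]
  refine Finset.sum_congr rfl fun κ' _ => Finset.sum_congr rfl fun κ _ => ?_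
  rw [smul_comm]

/-- the exchange of two points for a size which is not zero -/
private theorem swap_KTwo {b l : ℕ} {V : DTU.Fam ℂ b l} {χ : Fin l → ℂ → ℂ}
    {E : (Fin b → Option ℂ) → (Fin l → Option ℂ) → (Fin b → Option ℂ) → (Fin l → Option ℂ) → W}
    (hb : b ≤ 2) (hl : 1 ≤ l) (he : ∀ j, ∑ i, V.e i j = 2) (hM : ∀ i, 0 < V.M i)
    (hχ : HYG.Chars V.M χ) (hE : DTU.IsCls₂ V χ E) {z z' : Fin b → Option ℂ}
    {w w' : Fin l → Option ℂ} (h : DTU.On V z w) (h' : DTU.On V z' w') :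
    E z' w' z w = (-1 : ℤ) ^ (l - 1 + b) • E z w z' w' := by
  obtain ⟨n, rfl⟩ : ∃ n, l = n + 1 := ⟨l - 1, by omega⟩
  exact DTU.swap hb he hM hχ hE h h'

omit [Fintype S₁] [Fintype S₂] [Fintype S₄] in
theorem pr_swap₂ (hY : Y.Ok) {s : S₂}
    {f : Y.P (.inr (.inl s)) → Y.P (.inr (.inl s)) → W} (hf : Y.Cl2 f)
    (c : ∀ i : Fin (Y.l s), ZMod ((Y.V s).M i)) (hc : ∀ i, c i ≠ 0)
    (p q : Y.P (.inr (.inl s))) :
    Y.pr2 (.inr (.inl s)) (.inr (.inl s)) c c f p q =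
      (-1 : ℂ) ^ Y.n (.inr (.inl s)) •
        Y.pr2 (.inr (.inl s)) (.inr (.inl s)) c c f q p := by
  obtain ⟨σ, P, hP⟩ := exists_opt2 p
  obtain ⟨σ', Q, hQ⟩ := exists_opt2 q
  set E : (Fin (Y.b s) → Option ℂ) → (Fin (Y.l s) → Option ℂ) → (Fin (Y.b s) → Option ℂ) →
      (Fin (Y.l s) → Option ℂ) → W :=
    fun σ P σ' Q => f2 (fun p => f2 (fun q =>
      Y.pr2 (.inr (.inl s)) (.inr (.inl s)) c c f p q) σ' Q) σ P with hE
  have hEpq : E σ P σ' Q = Y.pr2 (.inr (.inl s)) (.inr (.inl s)) c c f p q := by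
    rw [hE]
    beta_reduce
    rw [f2_eq _ hP, f2_eq _ hQ]
  have hEqp : E σ' Q σ P = Y.pr2 (.inr (.inl s)) (.inr (.inl s)) c c f q p := by
    rw [hE]
    beta_reduce
    rw [f2_eq _ hQ, f2_eq _ hP]
  have hχ : HYG.Chars (Y.V s).M (fun i (u : ℂ) => u ^ (c i).val) := by
    refine ⟨fun i u u' _ _ => mul_pow _ _ _, fun i => ?_, fun i => one_pow _⟩
    exact HYG.exists_nontriv (fun h => hc i ((ZMod.val_eq_zero _).1 h)) (ZMod.val_lt _)
  have hcls : DTU.IsCls₂ (Y.V s) (fun i (u : ℂ) => u ^ (c i).val) E := by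
    refine ⟨(hf.pr2 c c).isCF2, fun σ P σ' Q i u hu => ?_, fun σ P σ' Q i u hu => ?_⟩
    · obtain ⟨h, hh⟩ := exists_root2 (Y := Y) i hu
      rw [rot_eq2, ← hh, hE]
      beta_reduce
      rw [f2_act, ← f2_smul]
      congr 1
      funext p
      rw [← f2_smul]
      congr 1
      funext q
      rw [pr2_left2, pr_act₂, ← pr2_left2, chi_upd2 c i u h hh]
    · obtain ⟨h, hh⟩ := exists_root2 (Y := Y) i hu
      rw [rot_eq2, ← hh, hE]
      beta_reduce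
      rw [← f2_smul]
      congr 1
      funext p
      rw [f2_act, ← f2_smul]
      congr 1
      funext q
      rw [pr2_right2, pr_act₂, ← pr2_right2, chi_upd2 c i u h hh]
  have h1 := swap_KTwo (hY.dim₂ s).1 (hY.dim₂ s).2.1 (hY.deg₂ s)
    (fun i => lt_of_lt_of_le two_pos (hY.exp₂ s i)) hχ hcls
    ((mem2_iff σ' Q).1 (hQ ▸ q.2)) ((mem2_iff σ P).1 (hP ▸ p.2))
  rw [hEpq, hEqp] at h1
  rw [h1]
  have h2 : Y.n (.inr (.inl s)) = Y.l s - 1 + Y.b s := by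
    have := (hY.dim₂ s).2.1
    change Y.b s + Y.l s - 1 = _
    omega
  rw [h2, ← Int.cast_smul_eq_zsmul ℂ]
  push_cast
  rfl

end Pool.Agent.BBN
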