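import Pool.Agent.BBN.Conds
import Pool.Agent.BBN.Uniq
import Pool.Agent.BBN.Thm

/-!
# Existence and uniqueness for the varieties of the four kinds
-/

set_option autoImplicit false

noncomputable section

namespace Pool.Agent.BBN

open Pool.Agent.BBM

variable {S₁ S₂ S₃ S₄ : Type} [Fintype S₁] [Fintype S₂] [Fintype S₃] [Fintype S₄]
  [DecidableEq S₁] [DecidableEq S₂] [DecidableEq S₃] [DecidableEq S₄] {Y : Fly S₁ S₂ S₃ S₄}

theorem conds (hY : Y.Ok) : Y.Conds (Fil Y.rat Y.n) := by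
  obtain ⟨h1, h2, -, -, h3, h4, h5⟩ := conditions hY
  exact ⟨fun m ν => (h1 m ν).1, fun m ν => (h1 m ν).2, h2, h3, h4, h5⟩

theorem conds_uniq (hY : Y.Ok)
    (Φ : (m : S₁ ⊕ S₂ ⊕ S₃ ⊕ S₄ → ℕ) → ℕ → Submodule ℚ (Pts Y.P m →₀ ℚ)) (h : Y.Conds Φ)
    (m : S₁ ⊕ S₂ ⊕ S₃ ⊕ S₄ → ℕ) (ν : ℕ) : Φ m ν = Fil Y.rat Y.n m ν := by
  have hne : ∀ s, Nonempty (Y.P s) := P_nonempty hY
  exact uniq (n := Y.n) (om := Y.om) (act := Y.act) (e := Y.id) act_id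
    (fun m m' f => rat_map f) h.ge h.anti h.zero (fun m => (h.top m).le) h.map
    (fun m m' ν γ hγ => h.grad m m' ν γ hγ) m ν

end Pool.Agent.BBN
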