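import Pool.Agent.BBN.Aut
import Pool.Agent.BBM.Grad
import Pool.Agent.BS.Pow.Nilp

/-!
# Combinations of automorphisms which kill the holomorphic forms
-/

set_option autoImplicit false

noncomputable section

namespace Pool.Agent.BBN

open Pool.Agent.ZCyc Pool.Agent.BBM
open scoped LinearAlgebra.Projectivization

variable {S₁ S₂ S₃ S₄ : Type} {Y : Fly S₁ S₂ S₃ S₄} {m : S₁ ⊕ S₂ ⊕ S₃ ⊕ S₄ → ℕ}

private def rho (Y : Fly S₁ S₂ S₃ S₄) (m : S₁ ⊕ S₂ ⊕ S₃ ⊕ S₄ → ℕ) :
    Aut Y m →* Module.End ℚ (Pts Y.P m →₀ ℚ) where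
  toFun g := Finsupp.lmapDomain ℚ ℚ (sy g)
  map_one' := by
    rw [sy_one]
    exact Finsupp.lmapDomain_id _ _
  map_mul' g h := by
    rw [sy_mul]
    exact Finsupp.lmapDomain_comp _ _ _ _

private theorem step_app (g : Aut Y m) : Mor.app Y.act (toMor g) = sy g := rfl

variable [Fintype S₁] [Fintype S₂] [Fintype S₃] [Fintype S₄] [DecidableEq S₁] [DecidableEq S₂] [DecidableEq S₃]
  [DecidableEq S₄]

omit [Fintype S₁] [Fintype S₂] [Fintype S₃] [Fintype S₄] [DecidableEq S₁] [DecidableEq S₂] [DecidableEq S₃]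
  [DecidableEq S₄] in
private theorem step_push [Fintype (Aut Y m)] (γ : Aut Y m →₀ ℚ) :
    pushM Y.act (γ.mapDomain toMor) = ∑ g, γ g • rho Y m g := by
  rw [pushM, Finsupp.sum_mapDomain_index (fun _ => by simp) (fun _ _ _ => add_smul _ _ _),
    Finsupp.sum_fintype _ _ (fun _ => by simp)]
  rfl

/-- If `γ` kills all holomorphic forms then `γ x` is rationally equivalent to zero for all points `x`;
from the conditions 3 and 4. -/
theorem step (hY : Y.Ok) (hzero : Fil Y.rat Y.n m 0 = ⊤)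
    (htop : Fil Y.rat Y.n m (∑ s, Y.n s * m s + 1) = Y.rat m)
    (hmap : ∀ (ν : ℕ) (γ : Mor Y.P Y.G m m →₀ ℚ),
      (Fil Y.rat Y.n m ν).map (pushM Y.act γ) ≤ Fil Y.rat Y.n m ν)
    (hgrad : ∀ (ν : ℕ) (γ : Mor Y.P Y.G m m →₀ ℚ), Y.KillsForms γ ν →
      (Fil Y.rat Y.n m ν).map (pushM Y.act γ) ≤ Fil Y.rat Y.n m (ν + 1))
    (γ : Aut Y m →₀ ℚ) (hγ : KillsAll γ) (x : Pts Y.P m) :
    (γ.sum fun a c => Finsupp.single (sy a x) c) ∈ Y.rat m := by
  have := finite_aut (m := m) hY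
  have : Fintype (Aut Y m) := Fintype.ofFinite _
  have h1 := Pool.Agent.BS.map_le_of_step (rho Y m) (Fil Y.rat Y.n m) (fun g ν => by
    have h2 := hmap ν (Finsupp.single (toMor g) 1)
    have h3 : pushM Y.act (Finsupp.single (toMor g) (1 : ℚ)) = rho Y m g := by
      rw [pushM, Finsupp.sum_single_index (by simp), one_smul, step_app]
      rfl
    rw [h3] at h2
    exact h2) γ (fun ν => by
      rw [← step_push]
      exact hgrad ν _ (hγ ν)) (∑ s, Y.n s * m s + 1)
  rw [htop, hzero] at h1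
  have h3 := h1 (Submodule.mem_map_of_mem (Submodule.mem_top (x := Finsupp.single x (1 : ℚ))))
  rw [LinearMap.sum_apply] at h3
  rw [Finsupp.sum_fintype _ _ (fun _ => Finsupp.single_zero _)]
  convert h3 using 1
  refine Finset.sum_congr rfl fun g _ => ?_
  rw [LinearMap.smul_apply]
  change _ = γ g • Finsupp.mapDomain (sy g) _
  rw [Finsupp.mapDomain_single, Finsupp.smul_single, smul_eq_mul, mul_one]

end Pool.Agent.BBN
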