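import Pool.Agent.BBN.Main

/-!
# Permutations of equal factors
-/

set_option autoImplicit false

noncomputable section

namespace Pool.Agent.BBN

open Pool.Agent.ZCyc Pool.Agent.BBM Pool.Agent.BBX

private theorem top_Voi {S : Type} {k : S → ℕ} [Fintype S] [D : DecidableEq S] {𝒮 : Sys S}
    (h : 𝒮.Ok) (γ : ((∀ s, Equiv.Perm (Fin (k s))) × (∀ i : Idx k, 𝒮.G i.1)) →₀ ℚ)
    (hγ : 𝒮.KillsTop γ) (x y : Pts 𝒮.P k) :
    (γ.sum fun g c => c • (cyc ℚ Finset.univ x y).mapDomain (symAct 𝒮.act g.1 g.2)) ∈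
      𝒮.rat k := by
  have hD : D = fun a b => Classical.propDecidable (a = b) := Subsingleton.elim _ _
  subst hD
  exact top h γ hγ x y

/-- the alternating sum over the permutations of equal factors -/
private def alt {S : Type} {k : S → ℕ} [Fintype S] [DecidableEq S] (𝒮 : Sys S)
    (id : ∀ s, 𝒮.G s) : ((∀ s, Equiv.Perm (Fin (k s))) × (∀ i : Idx k, 𝒮.G i.1)) →₀ ℚ :=
  ∑ τ : ∀ s, Equiv.Perm (Fin (k s)), Finsupp.single (τ, fun i : Idx k => id i.1)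
    (∏ s, (((Equiv.Perm.sign (τ s) : ℤˣ) : ℤ) : ℚ) ^ (𝒮.n s + 1))

private theorem alt_sum {S : Type} {k : S → ℕ} [Fintype S] [DecidableEq S] {𝒮 : Sys S}
    (id : ∀ s, 𝒮.G s) {W : Type} [AddCommGroup W]
    (H : (∀ s, Equiv.Perm (Fin (k s))) × (∀ i : Idx k, 𝒮.G i.1) → ℚ → W)
    (hz : ∀ g, H g 0 = 0) (hadd : ∀ g a b, H g (a + b) = H g a + H g b) :
    (alt 𝒮 id).sum H = ∑ τ : ∀ s, Equiv.Perm (Fin (k s)), H (τ, fun i : Idx k => id i.1)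
      (∏ s, (((Equiv.Perm.sign (τ s) : ℤˣ) : ℤ) : ℚ) ^ (𝒮.n s + 1)) := by
  unfold alt
  have h1 : ∀ A : Finset (∀ s, Equiv.Perm (Fin (k s))),
      (∑ τ ∈ A, Finsupp.single (τ, fun i : Idx k => id i.1)
        (∏ s, (((Equiv.Perm.sign (τ s) : ℤˣ) : ℤ) : ℚ) ^ (𝒮.n s + 1))).sum H =
      ∑ τ ∈ A, H (τ, fun i : Idx k => id i.1)
        (∏ s, (((Equiv.Perm.sign (τ s) : ℤˣ) : ℤ) : ℚ) ^ (𝒮.n s + 1)) := by
    classical
    intro A
    induction A using Finset.induction_on with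
    | empty => simp
    | insert τ A hτ ih =>
      rw [Finset.sum_insert hτ, Finset.sum_insert hτ, Finsupp.sum_add_index' hz hadd,
        Finsupp.sum_single_index (hz _), ih]
  exact h1 Finset.univ

private theorem alt_zero {S : Type} {k : S → ℕ} [Fintype S] [DecidableEq S] {F : S → Type}
    (b b' : ∀ i : Idx k, F i.1) {s : S} (h1 : IsEmpty (Fin (k s) ↪ F s))
    (D : ∀ τ : ∀ s, Equiv.Perm (Fin (k s)), Decidable (∀ i : Idx k, b' ⟨i.1, τ i.1 i.2⟩ = b i)) :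
    ∑ τ : ∀ s, Equiv.Perm (Fin (k s)), (if ∀ i : Idx k, b' ⟨i.1, τ i.1 i.2⟩ = b i then
      ∏ s, (((Equiv.Perm.sign (τ s) : ℤˣ) : ℤ) : ℂ) else 0) = 0 := by
  have h2 : ¬ Function.Injective fun x : Fin (k s) => b ⟨s, x⟩ := fun h => h1.false ⟨_, h⟩
  obtain ⟨p, q, hpq, hne⟩ : ∃ p q : Fin (k s), b ⟨s, p⟩ = b ⟨s, q⟩ ∧ p ≠ q := by
    unfold Function.Injective at h2
    push Not at h2
    obtain ⟨p, q, h3, h4⟩ := h2
    exact ⟨p, q, h3, h4⟩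
  obtain ⟨ρ, hρ⟩ : ∃ ρ : ∀ s, Equiv.Perm (Fin (k s)),
      ρ = Function.update (fun s => (1 : Equiv.Perm (Fin (k s)))) s (Equiv.swap p q) := ⟨_, rfl⟩
  have hρs : ρ s = Equiv.swap p q := by
    rw [hρ, Function.update_self]
  have hρt : ∀ t, t ≠ s → ρ t = 1 := fun t ht => by
    rw [hρ, Function.update_of_ne ht]
  have hb : ∀ i : Idx k, b ⟨i.1, ρ i.1 i.2⟩ = b i := by
    rintro ⟨t, x⟩
    by_cases ht : t = s
    · subst ht
      change b ⟨t, ρ t x⟩ = b ⟨t, x⟩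
      rw [hρs]
      by_cases h5 : x = p
      · rw [h5, Equiv.swap_apply_left, hpq]
      by_cases h6 : x = q
      · rw [h6, Equiv.swap_apply_right, hpq]
      rw [Equiv.swap_apply_of_ne_of_ne h5 h6]
    · change b ⟨t, ρ t x⟩ = b ⟨t, x⟩
      rw [hρt t ht]
      rfl
  have hρρ : ρ * ρ = 1 := by
    funext t
    change ρ t * ρ t = 1
    by_cases ht : t = s
    · subst ht
      rw [hρs, Equiv.swap_mul_self]
    · rw [hρt t ht, one_mul]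
  have hc : ∀ τ : ∀ s, Equiv.Perm (Fin (k s)),
      (∀ i : Idx k, b' ⟨i.1, (τ * ρ) i.1 i.2⟩ = b i) ↔ ∀ i : Idx k, b' ⟨i.1, τ i.1 i.2⟩ = b i := by
    intro τ
    constructor
    · intro h i
      have h3 := h ⟨i.1, ρ i.1 i.2⟩
      have h4 : (τ * ρ) i.1 (ρ i.1 i.2) = τ i.1 i.2 := by
        change τ i.1 ((ρ i.1 * ρ i.1) i.2) = τ i.1 i.2
        rw [show ρ i.1 * ρ i.1 = 1 from congrFun hρρ i.1]
        rfl
      change b' ⟨i.1, (τ * ρ) i.1 (ρ i.1 i.2)⟩ = b ⟨i.1, ρ i.1 i.2⟩ at h3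
      rw [h4, hb] at h3
      exact h3
    · intro h i
      have h3 := h ⟨i.1, ρ i.1 i.2⟩
      change b' ⟨i.1, τ i.1 (ρ i.1 i.2)⟩ = b ⟨i.1, ρ i.1 i.2⟩ at h3
      rw [hb] at h3
      exact h3
  have hs : ∀ τ : ∀ s, Equiv.Perm (Fin (k s)),
      ∏ s, (((Equiv.Perm.sign ((τ * ρ) s) : ℤˣ) : ℤ) : ℂ) =
      -∏ s, (((Equiv.Perm.sign (τ s) : ℤˣ) : ℤ) : ℂ) := by
    intro τ
    have h3 : ∀ t, (((Equiv.Perm.sign ((τ * ρ) t) : ℤˣ) : ℤ) : ℂ) =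
        (((Equiv.Perm.sign (τ t) : ℤˣ) : ℤ) : ℂ) * (((Equiv.Perm.sign (ρ t) : ℤˣ) : ℤ) : ℂ) := by
      intro t
      change (((Equiv.Perm.sign (τ t * ρ t) : ℤˣ) : ℤ) : ℂ) = _
      rw [Equiv.Perm.sign_mul]
      push_cast
      ring
    have h4 : ∏ t, (((Equiv.Perm.sign (ρ t) : ℤˣ) : ℤ) : ℂ) =
        (((Equiv.Perm.sign (ρ s) : ℤˣ) : ℤ) : ℂ) :=
      Finset.prod_eq_single s (fun t _ ht => by rw [hρt t ht]; simp)
        (fun h => absurd (Finset.mem_univ s) h)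
    rw [Finset.prod_congr rfl fun t _ => h3 t, Finset.prod_mul_distrib, h4, hρs,
      Equiv.Perm.sign_swap hne]
    simp
  refine Finset.sum_involution (fun τ _ => τ * ρ) ?_ ?_ (fun _ _ => Finset.mem_univ _) ?_
  · intro τ _
    by_cases h : ∀ i : Idx k, b' ⟨i.1, τ i.1 i.2⟩ = b i
    · rw [if_pos h, if_pos ((hc τ).2 h), hs]
      ring
    · rw [if_neg h, if_neg fun h' => h ((hc τ).1 h'), add_zero]
  · intro τ _ _ h
    have h3 : ρ = 1 := mul_left_cancel (h.trans (mul_one τ).symm)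
    have h4 := hρs
    rw [h3] at h4
    exact hne (Equiv.swap_eq_one_iff.1 h4.symm)
  · intro τ _
    rw [mul_assoc, hρρ, mul_one]

private theorem alt_Voi {S : Type} {k : S → ℕ} [Fintype S] [DecidableEq S] {𝒮 : Sys S}
    (h : 𝒮.Ok) (id : ∀ s, 𝒮.G s) {s : S} (h1 : IsEmpty (Fin (k s) ↪ 𝒮.Form s))
    (x y : Pts 𝒮.P k) :
    (∑ τ : ∀ s, Equiv.Perm (Fin (k s)),
      (∏ s, (((Equiv.Perm.sign (τ s) : ℤˣ) : ℤ) : ℚ) ^ (𝒮.n s + 1)) •
        (cyc ℚ Finset.univ x y).mapDomain (symAct 𝒮.act τ fun i : Idx k => id i.1)) ∈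
      𝒮.rat k := by
  obtain ⟨H, hH⟩ : ∃ H : (∀ s, Equiv.Perm (Fin (k s))) × (∀ i : Idx k, 𝒮.G i.1) → ℚ →
      (Pts 𝒮.P k →₀ ℚ), H = fun g a => a • (cyc ℚ Finset.univ x y).mapDomain
        (symAct 𝒮.act g.1 g.2) := ⟨_, rfl⟩
  have hz : ∀ g, H g 0 = 0 := fun g => by
    rw [hH]
    exact zero_smul _ _
  have hadd : ∀ g a b, H g (a + b) = H g a + H g b := fun g a b => by
    rw [hH]
    exact add_smul _ _ _
  have h2 := top_Voi h (alt 𝒮 id) ?_ x y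
  · rw [← hH, alt_sum id H hz hadd, hH] at h2
    exact h2
  · intro b b'
    obtain ⟨T, hT⟩ : ∃ T : (∀ s, Equiv.Perm (Fin (k s))) × (∀ i : Idx k, 𝒮.G i.1) → ℂ,
        T = fun g => (∏ s, (((Equiv.Perm.sign (g.1 s) : ℤˣ) : ℤ) : ℂ) ^ 𝒮.n s) *
          ∏ i : Idx k, 𝒮.om i.1 (b i) (g.2 i) := ⟨_, rfl⟩
    have h3 : ∀ D : DecidablePred fun g : (∀ s, Equiv.Perm (Fin (k s))) ×
        (∀ i : Idx k, 𝒮.G i.1) => ∀ i : Idx k, b' ⟨i.1, g.1 i.1 i.2⟩ = b i,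
        ∑ g ∈ (alt 𝒮 id).support.filter (fun g => ∀ i : Idx k, b' ⟨i.1, g.1 i.1 i.2⟩ = b i),
          ((alt 𝒮 id g : ℚ) : ℂ) * T g = 0 := by
      intro D
      have h4 : ∑ g ∈ (alt 𝒮 id).support.filter
          (fun g => ∀ i : Idx k, b' ⟨i.1, g.1 i.1 i.2⟩ = b i), ((alt 𝒮 id g : ℚ) : ℂ) * T g =
          (alt 𝒮 id).sum fun g c => if ∀ i : Idx k, b' ⟨i.1, g.1 i.1 i.2⟩ = b i then
            (c : ℂ) * T g else 0 := by
        rw [Finset.sum_filter]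
        rfl
      rw [h4, alt_sum id _ (fun g => by simp) (fun g c c' => by
        split_ifs
        · push_cast
          ring
        · simp)]
      have h5 := alt_zero b b' h1 fun τ => D (τ, fun i : Idx k => id i.1)
      have h6 : ∀ (τ : ∀ s, Equiv.Perm (Fin (k s)))
          (_ : Decidable (∀ i : Idx k, b' ⟨i.1, τ i.1 i.2⟩ = b i)),
          (if ∀ i : Idx k, b' ⟨i.1, τ i.1 i.2⟩ = b i then
            ((∏ s, (((Equiv.Perm.sign (τ s) : ℤˣ) : ℤ) : ℚ) ^ (𝒮.n s + 1) : ℚ) : ℂ) *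
              T (τ, fun i : Idx k => id i.1) else 0) =
          (if ∀ i : Idx k, b' ⟨i.1, τ i.1 i.2⟩ = b i then
            ∏ s, (((Equiv.Perm.sign (τ s) : ℤˣ) : ℤ) : ℂ) else 0) *
              ∏ i : Idx k, 𝒮.om i.1 (b i) (id i.1) := by
        intro τ _
        rw [ite_mul, zero_mul, hT]
        refine if_congr Iff.rfl ?_ rfl
        push_cast
        rw [← mul_assoc, ← Finset.prod_mul_distrib]
        refine congrArg (· * _) (Finset.prod_congr rfl fun t _ => ?_)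
        have h7 : (((Equiv.Perm.sign (τ t) : ℤˣ) : ℤ) : ℂ) *
            (((Equiv.Perm.sign (τ t) : ℤˣ) : ℤ) : ℂ) = 1 := by
          rw [← Int.cast_mul, ← Units.val_mul, Int.units_mul_self]
          simp
        rw [← pow_add, show 𝒮.n t + 1 + 𝒮.n t = 2 * 𝒮.n t + 1 by ring, pow_succ, pow_mul, sq, h7,
          one_pow, one_mul]
      exact (Finset.sum_congr rfl fun τ _ => h6 τ (D (τ, fun i : Idx k => id i.1))).trans
        ((Finset.sum_mul _ _ _).symm.trans (by rw [h5, zero_mul]))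
    rw [hT] at h3
    exact h3 _

variable {S₁ S₂ S₃ S₄ : Type} [Fintype S₁] [Fintype S₂] [Fintype S₃] [Fintype S₄]
  [DecidableEq S₁] [DecidableEq S₂] [DecidableEq S₃] [DecidableEq S₄] {Y : Fly S₁ S₂ S₃ S₄}

/-- VOISIN'S CONJECTURE: the alternating (for odd `n s`: symmetric) sum of the permutations of a product
of cycles of degree zero is rationally equivalent to zero, if the number of the equal factors `Y s` is
greater than the number of the holomorphic forms of the highest degree on `Y s`. -/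
theorem voisin (hY : Y.Ok) {m : S₁ ⊕ S₂ ⊕ S₃ ⊕ S₄ → ℕ} {s : S₁ ⊕ S₂ ⊕ S₃ ⊕ S₄}
    (h1 : IsEmpty (Fin (m s) ↪ Y.Form s)) (x y : Pts Y.P m) :
    (∑ τ : ∀ s, Equiv.Perm (Fin (m s)),
      (∏ s, (((Equiv.Perm.sign (τ s) : ℤˣ) : ℤ) : ℚ) ^ (Y.n s + 1)) •
        (cyc ℚ Finset.univ x y).mapDomain fun z (i : Idx m) => z ⟨i.1, τ i.1 i.2⟩) ∈ Y.rat m := by
  have hd : ∀ s, NeZero (Y.d s) := fun s => ⟨by have h1 := (hY.dim₁ s).1; omega⟩
  have hM₂ : ∀ s i, NeZero ((Y.V s).M i) := fun s i => ⟨by have h1 := hY.exp₂ s i; omega⟩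
  have hM₄ : ∀ s i, NeZero ((Y.Z s).M i) := fun s i => ⟨by have h1 := hY.exp₄ s i; omega⟩
  have h2 := alt_Voi (𝒮 := Y.sys) (sys_ok hY) Y.id h1 x y
  have e1 : ∀ (σ : ∀ s, Equiv.Perm (Fin (m s))) (z : Pts Y.P m),
      symAct Y.act σ (fun i : Idx m => Y.id i.1) z = fun i : Idx m => z ⟨i.1, σ i.1 i.2⟩ := by
    intro σ z
    funext i
    exact act_id i.1 _
  have e2 : ∀ τ : ∀ s, Equiv.Perm (Fin (m s)), (symAct Y.act τ fun i : Idx m => Y.id i.1) =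
      fun (z : Pts Y.P m) (i : Idx m) => z ⟨i.1, τ i.1 i.2⟩ := fun τ => funext (e1 τ)
  change (∑ τ : ∀ s, Equiv.Perm (Fin (m s)),
      (∏ s, (((Equiv.Perm.sign (τ s) : ℤˣ) : ℤ) : ℚ) ^ (Y.n s + 1)) •
        (cyc ℚ Finset.univ x y).mapDomain (symAct Y.act τ fun i : Idx m => Y.id i.1)) ∈
      Y.rat m at h2
  rw [Finset.sum_congr rfl fun τ _ => by rw [e2 τ]] at h2
  exact h2

end Pool.Agent.BBN
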